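import Pool.Agent.TH198.AT.Stmts

/-!
# The maximum principle
-/

set_option autoImplicit false

open MeasureTheory ProbabilityTheory Set Filter Topology

namespace Pool.TH148.AT

open Pool.TH198.AT

/-- The right derivative of a function which is at least its initial value is nonnegative. -/
lemma max_right {g : ℝ → ℝ} {g' t T : ℝ} (hT : t < T) (hg : HasDerivWithinAt g g' (Ici t) t)
    (h : ∀ τ, t < τ → τ ≤ T → g t ≤ g τ) : 0 ≤ g' := by
  have h1 : HasDerivWithinAt g g' (Ioi t) t := hg.mono Ioi_subset_Ici_self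
  rw [hasDerivWithinAt_iff_tendsto_slope' (by simp)] at h1
  refine ge_of_tendsto h1 ?_
  filter_upwards [Ioc_mem_nhdsGT hT] with τ hτ
  rw [slope_def_field]
  exact div_nonneg (by linarith [h τ hτ.1 hτ.2]) (by linarith [hτ.1])

/-- The second derivative at a minimum is nonnegative. -/
lemma max_second {φ φ1 : ℝ → ℝ} {c : ℝ} (h1 : ∀ u, HasDerivAt φ (φ1 u) u)
    (h2 : HasDerivAt φ1 c 0) (hmin : ∀ u, φ 0 ≤ φ u) : 0 ≤ c := by
  by_contra hc
  push Not at hc
  have hd : deriv φ = φ1 := funext fun u => (h1 u).deriv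
  have hdd : deriv (deriv φ) 0 = c := by rw [hd]; exact h2.deriv
  have hmin0 : IsLocalMin φ 0 := Filter.Eventually.of_forall hmin
  have hd0 : deriv φ 0 = 0 := hmin0.deriv_eq_zero
  have hmax : IsLocalMax φ 0 :=
    isLocalMax_of_deriv_deriv_neg (by rw [hdd]; exact hc) hd0 (h1 0).continuousAt
  have hconst : φ =ᶠ[𝓝 0] fun _ => φ 0 := by
    filter_upwards [hmax] with u hu
    exact le_antisymm hu (hmin u)
  have h3 : deriv φ =ᶠ[𝓝 0] deriv (fun _ : ℝ => φ 0) := hconst.deriv
  have h4 : deriv (deriv φ) 0 = deriv (deriv (fun _ : ℝ => φ 0)) 0 := h3.deriv_eq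
  rw [hdd] at h4
  simp at h4
  exact hc.ne h4

theorem t_MAX : St_MAX := by
  intro a T0 T1 C D Dt D1 D2 Dx Dy c1 c2 ha hT hcont hL hT1 hlow
  -- the strict inequality with the barrier
  have key : ∀ ε : ℝ, 0 < ε → ∀ t ∈ Icc T0 T1, ∀ x y : ℝ,
      0 < D t x y + ε * Real.exp ((2 * a + 2 * |C| + 1) * (T1 - t)) * (1 + x ^ 2 + y ^ 2) := by
    intro ε hε
    set K : ℝ := 2 * a + 2 * |C| + 1 with hK
    have hC0 : 0 ≤ |C| := abs_nonneg C
    have hCle : C ≤ |C| := le_abs_self C
    have hK0 : 0 < K := by positivity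
    set E : ℝ × ℝ × ℝ → ℝ := fun p =>
      D p.1 p.2.1 p.2.2 + ε * Real.exp (K * (T1 - p.1)) * (1 + p.2.1 ^ 2 + p.2.2 ^ 2) with hE
    by_contra hcon
    push Not at hcon
    obtain ⟨t₀, ht₀, x₀, y₀, hneg⟩ := hcon
    set F : Set (ℝ × ℝ × ℝ) := Icc T0 T1 ×ˢ univ with hF
    have hFc : IsClosed F := isClosed_Icc.prod isClosed_univ
    have hEc : ContinuousOn E F := by
      refine hcont.add (Continuous.continuousOn ?_)
      fun_prop
    set S : Set (ℝ × ℝ × ℝ) := F ∩ E ⁻¹' Iic 0 with hS
    have hSc : IsClosed S := hEc.preimage_isClosed_of_isClosed hFc isClosed_Iic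
    set M : ℝ := 2 / ε * (|C| + |C| ^ 2 / ε) with hM
    have hSsub : S ⊆ Icc T0 T1 ×ˢ (Icc (-(M + 1)) (M + 1) ×ˢ Icc (-(M + 1)) (M + 1)) := by
      rintro ⟨t, x, y⟩ ⟨⟨ht, -⟩, hp⟩
      have hp' : D t x y + ε * Real.exp (K * (T1 - t)) * (1 + x ^ 2 + y ^ 2) ≤ 0 := hp
      have ht' : t ∈ Icc T0 T1 := ht
      have hexp : 1 ≤ Real.exp (K * (T1 - t)) :=
        Real.one_le_exp (mul_nonneg hK0.le (by linarith [ht'.2]))
      have h1 : ε * (1 + x ^ 2 + y ^ 2) ≤ ε * Real.exp (K * (T1 - t)) * (1 + x ^ 2 + y ^ 2) := by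
        apply mul_le_mul_of_nonneg_right _ (by positivity)
        nlinarith
      have h2 := hlow t ht' x y
      have h3 : C * (1 + |x| + |y|) ≤ |C| * (1 + |x| + |y|) :=
        mul_le_mul_of_nonneg_right hCle (by positivity)
      have h4 : ∀ z : ℝ, |C| * |z| ≤ ε * z ^ 2 / 2 + |C| ^ 2 / (2 * ε) := by
        intro z
        have : 0 ≤ (ε * |z| - |C|) ^ 2 / (2 * ε) := by positivity
        have e1 : (ε * |z| - |C|) ^ 2 / (2 * ε)
            = ε * |z| ^ 2 / 2 + |C| ^ 2 / (2 * ε) - |C| * |z| := by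
          field_simp; ring
        rw [e1, sq_abs z] at this
        linarith
      have h5 := h4 x
      have h6 := h4 y
      have h7 : ε * (x ^ 2 + y ^ 2) / 2 ≤ |C| + |C| ^ 2 / ε := by
        have e2 : |C| ^ 2 / (2 * ε) + |C| ^ 2 / (2 * ε) = |C| ^ 2 / ε := by field_simp; ring
        nlinarith
      have h8 : x ^ 2 + y ^ 2 ≤ M := by
        rw [hM]
        have : x ^ 2 + y ^ 2 = 2 / ε * (ε * (x ^ 2 + y ^ 2) / 2) := by field_simp
        rw [this]
        exact mul_le_mul_of_nonneg_left h7 (by positivity)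
      refine ⟨ht', ⟨?_, ?_⟩, ⟨?_, ?_⟩⟩
      · change -(M + 1) ≤ x
        nlinarith [sq_nonneg (x + 1), sq_nonneg y]
      · change x ≤ M + 1
        nlinarith [sq_nonneg (x - 1), sq_nonneg y]
      · change -(M + 1) ≤ y
        nlinarith [sq_nonneg (y + 1), sq_nonneg x]
      · change y ≤ M + 1
        nlinarith [sq_nonneg (y - 1), sq_nonneg x]
    have hScomp : IsCompact S :=
      (isCompact_Icc.prod (isCompact_Icc.prod isCompact_Icc)).of_isClosed_subset hSc hSsub
    have hSne : S.Nonempty := ⟨(t₀, x₀, y₀), ⟨ht₀, mem_univ _⟩, hneg⟩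
    obtain ⟨⟨t, x, y⟩, hmem, hmax⟩ := hScomp.exists_isMaxOn hSne continuous_fst.continuousOn
    have ht : t ∈ Icc T0 T1 := hmem.1.1
    have hEle : D t x y + ε * Real.exp (K * (T1 - t)) * (1 + x ^ 2 + y ^ 2) ≤ 0 := hmem.2
    have htT : t < T1 := by
      rcases ht.2.lt_or_eq with h | h
      · exact h
      · exfalso
        rw [h] at hEle
        have h1 := hT1 x y
        have h2 : 0 < ε * Real.exp (K * (T1 - T1)) * (1 + x ^ 2 + y ^ 2) := by positivity
        linarith
    have hpos : ∀ τ, t < τ → τ ≤ T1 → ∀ x' y' : ℝ,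
        0 < D τ x' y' + ε * Real.exp (K * (T1 - τ)) * (1 + x' ^ 2 + y' ^ 2) := by
      intro τ h1 h2 x' y'
      by_contra h3
      push Not at h3
      have h4 : (τ, x', y') ∈ S := ⟨⟨⟨by linarith [ht.1], h2⟩, mem_univ _⟩, h3⟩
      have h5 : τ ≤ t := hmax h4
      linarith
    have htIco : t ∈ Ico T0 T1 := ⟨ht.1, htT⟩
    -- the time derivative of the barrier
    have hbt : ∀ x' y' : ℝ, HasDerivWithinAt
        (fun τ => D τ x' y' + ε * Real.exp (K * (T1 - τ)) * (1 + x' ^ 2 + y' ^ 2))
        (Dt t x' y' + ε * (Real.exp (K * (T1 - t)) * (-K)) * (1 + x' ^ 2 + y' ^ 2)) (Ici t) t := by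
      intro x' y'
      refine (hL t htIco x' y').1.add (HasDerivAt.hasDerivWithinAt ?_)
      have e1 : HasDerivAt (fun τ : ℝ => K * (T1 - τ)) (-K) t := by
        have := ((hasDerivAt_id t).const_sub T1).const_mul K
        simpa using this
      exact (e1.exp.const_mul ε).mul_const _
    have hnn : ∀ x' y' : ℝ, 0 ≤ D t x' y' + ε * Real.exp (K * (T1 - t)) * (1 + x' ^ 2 + y' ^ 2) := by
      intro x' y'
      have h1 := (hbt x' y').continuousWithinAt.mono Ioi_subset_Ici_self
      refine ge_of_tendsto h1 ?_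
      filter_upwards [Ioc_mem_nhdsGT htT] with τ hτ
      exact (hpos τ hτ.1 hτ.2 x' y').le
    have hzero : D t x y + ε * Real.exp (K * (T1 - t)) * (1 + x ^ 2 + y ^ 2) = 0 :=
      le_antisymm hEle (hnn x y)
    obtain ⟨-, hD1, hD2, hDx, hDy, hc1, hc2, hineq⟩ := hL t htIco x y
    set e : ℝ := ε * Real.exp (K * (T1 - t)) with he
    have he0 : 0 < e := by positivity
    -- time derivative
    have htime : 0 ≤ Dt t x y + ε * (Real.exp (K * (T1 - t)) * (-K)) * (1 + x ^ 2 + y ^ 2) := by
      refine max_right htT (hbt x y) fun τ h1 h2 => ?_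
      have := (hpos τ h1 h2 x y).le
      change D t x y + ε * Real.exp (K * (T1 - t)) * (1 + x ^ 2 + y ^ 2) ≤ _
      rw [hzero]
      exact this
    have htime' : K * e * (1 + x ^ 2 + y ^ 2) ≤ Dt t x y := by
      have : ε * (Real.exp (K * (T1 - t)) * (-K)) = -(K * e) := by rw [he]; ring
      rw [this] at htime
      linarith
    -- first derivatives
    have hx : Dx t x y = -(2 * e * x) := by
      have h1 : HasDerivAt (fun u => D t u y + e * (1 + u ^ 2 + y ^ 2)) (Dx t x y + e * (2 * x)) x := by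
        refine hDx.add (HasDerivAt.const_mul e ?_)
        have h2 := ((hasDerivAt_pow 2 x).const_add 1).add_const (y ^ 2)
        simpa using h2
      have h3 : IsLocalMin (fun u => D t u y + e * (1 + u ^ 2 + y ^ 2)) x := by
        refine Filter.Eventually.of_forall fun u => ?_
        change D t x y + e * (1 + x ^ 2 + y ^ 2) ≤ D t u y + e * (1 + u ^ 2 + y ^ 2)
        rw [hzero]
        exact hnn u y
      have h4 := h3.hasDerivAt_eq_zero h1
      linarith
    have hy : Dy t x y = -(2 * e * y) := by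
      have h1 : HasDerivAt (fun u => D t x u + e * (1 + x ^ 2 + u ^ 2)) (Dy t x y + e * (2 * y)) y := by
        refine hDy.add (HasDerivAt.const_mul e ?_)
        have h2 := (hasDerivAt_pow 2 y).const_add (1 + x ^ 2)
        simpa using h2
      have h3 : IsLocalMin (fun u => D t x u + e * (1 + x ^ 2 + u ^ 2)) y := by
        refine Filter.Eventually.of_forall fun u => ?_
        change D t x y + e * (1 + x ^ 2 + y ^ 2) ≤ D t x u + e * (1 + x ^ 2 + u ^ 2)
        rw [hzero]
        exact hnn x u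
      have h4 := h3.hasDerivAt_eq_zero h1
      linarith
    -- second derivative
    have hsec : 0 ≤ D2 t x y + e * 4 := by
      refine max_second (φ := fun u => D t (x + u) (y + u) + e * (1 + (x + u) ^ 2 + (y + u) ^ 2))
        (φ1 := fun u => D1 t (x + u) (y + u) + e * (2 * (x + u) + 2 * (y + u))) ?_ ?_ ?_
      · intro u
        have h1 := (hL t htIco (x + u) (y + u)).2.1
        have h2 : HasDerivAt (fun v => D t (x + v) (y + v)) (D1 t (x + u) (y + u)) u := by
          have h4 : HasDerivAt (fun w => D t (x + u + w) (y + u + w)) (D1 t (x + u) (y + u))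
              (u - u) := by
            rw [sub_self]; exact h1
          have h5 := h4.comp_sub_const u u
          refine h5.congr_of_eventuallyEq (Filter.Eventually.of_forall fun v => ?_)
          change D t (x + v) (y + v) = D t (x + u + (v - u)) (y + u + (v - u))
          congr 1 <;> ring
        refine h2.add (HasDerivAt.const_mul e ?_)
        have e1 : HasDerivAt (fun v : ℝ => (x + v) ^ 2) (2 * (x + u)) u := by
          have := ((hasDerivAt_id u).const_add x).fun_pow 2
          simpa using this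
        have e2 : HasDerivAt (fun v : ℝ => (y + v) ^ 2) (2 * (y + u)) u := by
          have := ((hasDerivAt_id u).const_add y).fun_pow 2
          simpa using this
        exact (e1.const_add 1).add e2
      · refine hD2.add (HasDerivAt.const_mul e ?_)
        have e1 : HasDerivAt (fun v : ℝ => 2 * (x + v)) 2 0 := by
          have := ((hasDerivAt_id (0:ℝ)).const_add x).const_mul 2
          simpa using this
        have e2 : HasDerivAt (fun v : ℝ => 2 * (y + v)) 2 0 := by
          have := ((hasDerivAt_id (0:ℝ)).const_add y).const_mul 2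
          simpa using this
        have := e1.add e2
        norm_num at this
        exact this
      · intro u
        simp only [add_zero]
        rw [hzero]
        exact hnn _ _
    -- contradiction
    rw [hx, hy] at hineq
    have g1 : -(c1 t x y * -(2 * e * x)) ≤ 2 * e * |C| * |x| := by
      have h1 : |c1 t x y * (2 * e * x)| ≤ |C| * (2 * e * |x|) := by
        rw [abs_mul, abs_mul, abs_of_pos (by positivity : (0:ℝ) < 2 * e)]
        exact mul_le_mul_of_nonneg_right (hc1.trans hCle) (by positivity)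
      have h2 := le_abs_self (c1 t x y * (2 * e * x))
      nlinarith
    have g2 : -(c2 t x y * -(2 * e * y)) ≤ 2 * e * |C| * |y| := by
      have h1 : |c2 t x y * (2 * e * y)| ≤ |C| * (2 * e * |y|) := by
        rw [abs_mul, abs_mul, abs_of_pos (by positivity : (0:ℝ) < 2 * e)]
        exact mul_le_mul_of_nonneg_right (hc2.trans hCle) (by positivity)
      have h2 := le_abs_self (c2 t x y * (2 * e * y))
      nlinarith
    have g3 : a / 2 * (-(e * 4)) ≤ a / 2 * D2 t x y :=
      mul_le_mul_of_nonneg_left (by linarith) (by positivity)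
    have g4 : K * e * (1 + x ^ 2 + y ^ 2) ≤ 2 * a * e + 2 * e * |C| * |x| + 2 * e * |C| * |y| := by
      nlinarith
    have g5 : K * (1 + x ^ 2 + y ^ 2) ≤ 2 * a + 2 * |C| * |x| + 2 * |C| * |y| := by
      have : e * (K * (1 + x ^ 2 + y ^ 2)) ≤ e * (2 * a + 2 * |C| * |x| + 2 * |C| * |y|) := by
        linarith
      exact le_of_mul_le_mul_left this he0
    have g6 : |x| ≤ (1 + x ^ 2) / 2 := by nlinarith [sq_nonneg (|x| - 1), sq_abs x]
    have g7 : |y| ≤ (1 + y ^ 2) / 2 := by nlinarith [sq_nonneg (|y| - 1), sq_abs y]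
    have g8 : 2 * |C| * |x| + 2 * |C| * |y| ≤ 2 * |C| * (1 + x ^ 2 + y ^ 2) := by
      have : |x| + |y| ≤ 1 + x ^ 2 + y ^ 2 := by nlinarith [sq_nonneg x, sq_nonneg y]
      nlinarith
    have g9 : 2 * a ≤ 2 * a * (1 + x ^ 2 + y ^ 2) := by nlinarith [sq_nonneg x, sq_nonneg y]
    rw [hK] at g5
    nlinarith [sq_nonneg x, sq_nonneg y]
  intro t ht x y
  set B : ℝ := Real.exp ((2 * a + 2 * |C| + 1) * (T1 - t)) * (1 + x ^ 2 + y ^ 2) with hB
  have hB0 : 0 < B := by positivity
  by_contra hneg
  push Not at hneg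
  have h1 := key (-(D t x y) / (2 * B)) (by
    apply div_pos (by linarith) (by positivity)) t ht x y
  have h2 : -(D t x y) / (2 * B) * Real.exp ((2 * a + 2 * |C| + 1) * (T1 - t)) *
      (1 + x ^ 2 + y ^ 2) = -(D t x y) / 2 := by
    rw [mul_assoc, ← hB]
    field_simp
  rw [h2] at h1
  linarith

end Pool.TH148.AT
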