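import Pool.Agent.TH316.AT.Ex

/-!
# The integrated equation (piece EX-TI of the existence for the Parisi equation)
-/

set_option autoImplicit false

open MeasureTheory ProbabilityTheory Set Filter Topology

namespace Pool.TH148.AT.TI

open Pool.TH198.AT Pool.TH316.AT

/-- the substitution `ρ = t + u²` -/
lemma subst_sq (t : ℝ) (h : ℝ → ℝ) :
    ∫ u in (0:ℝ)..1, 2 * u * h (t + u ^ 2) = ∫ ρ in t..(t + 1), h ρ := by
  rw [intervalIntegral.integral_of_le zero_le_one, intervalIntegral.integral_of_le (by linarith)]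
  have himg : (fun u : ℝ => t + u ^ 2) '' Ioc 0 1 = Ioc t (t + 1) := by
    ext ρ
    constructor
    · rintro ⟨u, hu, rfl⟩
      have h1 : 0 < u ^ 2 := by have := hu.1; positivity
      have h2 : u ^ 2 ≤ 1 := by nlinarith [hu.1, hu.2]
      constructor
      · change t < t + u ^ 2
        linarith
      · change t + u ^ 2 ≤ t + 1
        linarith
    · intro hρ
      have h0 : 0 ≤ ρ - t := by linarith [hρ.1]
      refine ⟨√(ρ - t), ⟨Real.sqrt_pos.2 (by linarith [hρ.1]), ?_⟩, ?_⟩
      · exact Real.sqrt_le_one.2 (by linarith [hρ.2])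
      · simp [Real.sq_sqrt h0]
  have hinj : InjOn (fun u : ℝ => t + u ^ 2) (Ioc 0 1) := by
    intro u hu v hv huv
    have h1 : u ^ 2 = v ^ 2 := by simpa using huv
    exact (pow_left_inj₀ hu.1.le hv.1.le two_ne_zero).1 h1
  have hd : ∀ u ∈ Ioc (0:ℝ) 1, HasDerivWithinAt (fun u : ℝ => t + u ^ 2) (2 * u) (Ioc 0 1) u := by
    intro u _
    have h1 := ((hasDerivAt_pow 2 u).const_add t).hasDerivWithinAt (s := Ioc (0:ℝ) 1)
    simpa using h1
  rw [← himg, integral_image_eq_integral_abs_deriv_smul measurableSet_Ioc hd hinj]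
  refine setIntegral_congr_fun measurableSet_Ioc fun u hu => ?_
  simp only [smul_eq_mul, abs_of_pos (by linarith [hu.1] : 0 < 2 * u)]

/-- cut off at `1` -/
lemma cut_one {t : ℝ} (ht : t ∈ Icc (0:ℝ) 1) (h : ℝ → ℝ) (h1 : ∀ ρ, 1 < ρ → h ρ = 0) :
    ∫ ρ in t..(t + 1), h ρ = ∫ ρ in t..1, h ρ := by
  rw [intervalIntegral.integral_of_le (by linarith), intervalIntegral.integral_of_le ht.2]
  refine setIntegral_eq_of_subset_of_forall_sdiff_eq_zero measurableSet_Ioc ?_ ?_
  · exact Ioc_subset_Ioc_right (by linarith [ht.1])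
  · rintro ρ ⟨hρ, hρ'⟩
    refine h1 ρ ?_
    by_contra hc
    exact hρ' ⟨hρ.1, not_lt.1 hc⟩

lemma key (B : ℝ → ℝ → ℝ) (hB : Measurable (Function.uncurry B)) (K : ℝ)
    (hK : ∀ r v, |B r v| ≤ K) (h1 : ∀ r v, 1 < r → B r v = 0) {t : ℝ} (ht : t ∈ Icc (0:ℝ) 1) :
    ∫ u in (0:ℝ)..1, 2 * u * (∫ v in (0:ℝ)..u, B (t + u ^ 2) v) =
      ∫ r in t..1, ∫ v in (0:ℝ)..1, B (r + v ^ 2) v := by
  -- left side
  have hL : ∫ u in (0:ℝ)..1, 2 * u * (∫ v in (0:ℝ)..u, B (t + u ^ 2) v) =
      ∫ ρ in Ioc t 1, ∫ v in Ioc (0:ℝ) 1,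
        (if t + v ^ 2 ≤ ρ then B ρ v else 0) := by
    have e1 : ∫ u in (0:ℝ)..1, 2 * u * (∫ v in (0:ℝ)..u, B (t + u ^ 2) v) =
        ∫ u in (0:ℝ)..1, 2 * u * (fun ρ => ∫ v in (0:ℝ)..√(ρ - t), B ρ v) (t + u ^ 2) := by
      refine intervalIntegral.integral_congr fun u hu => ?_
      rw [uIcc_of_le zero_le_one] at hu
      have : √(t + u ^ 2 - t) = u := by
        rw [add_sub_cancel_left, Real.sqrt_sq hu.1]
      simp only [this]
    rw [e1, subst_sq t (fun ρ => ∫ v in (0:ℝ)..√(ρ - t), B ρ v),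
      cut_one ht _ (fun ρ hρ => ?_), intervalIntegral.integral_of_le ht.2]
    · refine setIntegral_congr_fun measurableSet_Ioc fun ρ hρ => ?_
      rw [intervalIntegral.integral_of_le (Real.sqrt_nonneg _)]
      have hset : Ioc 0 (√(ρ - t)) = Ioc (0:ℝ) 1 ∩ {v | t + v ^ 2 ≤ ρ} := by
        ext v
        simp only [mem_Ioc, mem_inter_iff, mem_ofPred_eq]
        constructor
        · rintro ⟨hv0, hv⟩
          have h2 : v ^ 2 ≤ ρ - t := (Real.le_sqrt hv0.le (by linarith [hρ.1])).1 hv
          refine ⟨⟨hv0, ?_⟩, by linarith⟩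
          have h3 : v ^ 2 ≤ 1 := by linarith [ht.1, hρ.2]
          nlinarith
        · rintro ⟨⟨hv0, -⟩, hv⟩
          exact ⟨hv0, (Real.le_sqrt hv0.le (by linarith [hρ.1])).2 (by linarith)⟩
      rw [hset, ← setIntegral_indicator]
      · refine setIntegral_congr_fun measurableSet_Ioc fun v _ => ?_
        simp only [indicator, mem_ofPred_eq]
      · exact measurableSet_le (by fun_prop) measurable_const
    · have : ∀ v, B ρ v = 0 := fun v => h1 ρ v hρ
      simp [this]
  -- right side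
  have hR : ∫ r in t..1, ∫ v in (0:ℝ)..1, B (r + v ^ 2) v =
      ∫ v in Ioc (0:ℝ) 1, ∫ ρ in Ioc t 1, (if t + v ^ 2 ≤ ρ then B ρ v else 0) := by
    rw [intervalIntegral.integral_of_le ht.2]
    simp only [intervalIntegral.integral_of_le (zero_le_one' ℝ)]
    rw [integral_integral_swap]
    · refine setIntegral_congr_fun measurableSet_Ioc fun v hv => ?_
      have e1 : ∫ r in Ioc t 1, B (r + v ^ 2) v = ∫ ρ in Ioc (t + v ^ 2) (1 + v ^ 2), B ρ v := by
        rw [← intervalIntegral.integral_of_le ht.2,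
          ← intervalIntegral.integral_of_le (by linarith [ht.2])]
        exact intervalIntegral.integral_comp_add_right (fun ρ => B ρ v) (v ^ 2)
      have hv2 : 0 < v ^ 2 := by have := hv.1; positivity
      have e2 : ∫ ρ in Icc (t + v ^ 2) (1 + v ^ 2), B ρ v = ∫ ρ in Icc (t + v ^ 2) 1, B ρ v := by
        refine setIntegral_eq_of_subset_of_forall_sdiff_eq_zero measurableSet_Icc ?_ ?_
        · exact Icc_subset_Icc_right (by linarith)
        · rintro ρ ⟨hρ, hρ'⟩
          refine h1 ρ v ?_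
          by_contra hc
          exact hρ' ⟨hρ.1, not_lt.1 hc⟩
      have hset : Icc (t + v ^ 2) 1 = Ioc t 1 ∩ {ρ | t + v ^ 2 ≤ ρ} := by
        ext ρ
        simp only [mem_Icc, mem_Ioc, mem_inter_iff, mem_ofPred_eq]
        constructor
        · rintro ⟨h2, h3⟩
          exact ⟨⟨by linarith, h3⟩, h2⟩
        · rintro ⟨⟨-, h3⟩, h2⟩
          exact ⟨h2, h3⟩
      rw [e1, ← integral_Icc_eq_integral_Ioc, e2, hset, ← setIntegral_indicator]
      · refine setIntegral_congr_fun measurableSet_Ioc fun ρ _ => ?_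
        simp only [indicator, mem_ofPred_eq]
      · exact measurableSet_le measurable_const measurable_id
    · refine Integrable.of_bound (C := K) ?_ ?_
      · refine Measurable.aestronglyMeasurable ?_
        exact hB.comp ((measurable_fst.add (measurable_snd.pow_const 2)).prodMk measurable_snd)
      · exact Filter.Eventually.of_forall fun p => by
          simpa [Function.uncurry] using hK (p.1 + p.2 ^ 2) p.2
  rw [hL, hR, integral_integral_swap]
  refine Integrable.of_bound (C := K) ?_ ?_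
  · refine Measurable.aestronglyMeasurable ?_
    refine Measurable.ite ?_ hB measurable_const
    exact measurableSet_le (by fun_prop) measurable_fst
  · refine Filter.Eventually.of_forall fun p => ?_
    have hK0 : 0 ≤ K := (abs_nonneg _).trans (hK 0 0)
    simp only [Function.uncurry]
    split_ifs
    · exact hK _ _
    · simpa using hK0

lemma zt_meas {ζ : ℝ → ℝ} (hζ : IsCdf ζ) : Measurable (zt ζ) := by
  have h1 : Monotone (fun s : ℝ => ζ (max 0 (min 1 s))) := by
    intro a b hab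
    refine hζ.1 ⟨le_max_left _ _, max_le zero_le_one (min_le_left _ _)⟩
      ⟨le_max_left _ _, max_le zero_le_one (min_le_left _ _)⟩ ?_
    exact max_le_max le_rfl (min_le_min le_rfl hab)
  have h2 : zt ζ = fun s => if s ≤ 1 then ζ (max 0 (min 1 s)) else 0 := by
    funext s
    unfold zt
    split_ifs with h
    · rw [min_eq_right h]
    · rfl
  rw [h2]
  exact Measurable.ite measurableSet_Iic h1.measurable measurable_const

lemma zt_bd {ζ : ℝ → ℝ} (hζ : IsCdf ζ) (s : ℝ) : |zt ζ s| ≤ 1 := by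
  unfold zt
  split_ifs with h
  · have h1 := hζ.2.1 (max 0 s) ⟨le_max_left _ _, max_le zero_le_one h⟩
    rw [abs_of_nonneg h1.1]
    exact h1.2
  · simp

lemma zt_eq {ζ : ℝ → ℝ} {s : ℝ} (hs : s ∈ Icc (0:ℝ) 1) : zt ζ s = ζ s := by
  unfold zt
  rw [if_pos hs.2, max_eq_right hs.1]

lemma abs_int : Integrable (fun y : ℝ => |y|) (gaussianReal 0 1) :=
  ((memLp_id_gaussianReal 1).integrable le_rfl).abs

lemma cont_w (w : ℝ → ℝ) (hw : Continuous w) (hwi : Integrable (fun y => |w y|) (gaussianReal 0 1))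
    {C : ℝ} {g : ℝ → ℝ → ℝ} (hg : BC C g) (x : ℝ) :
    Continuous (fun p : ℝ × ℝ => E1 (fun y => w y * g p.1 (x + p.2 * y))) := by
  unfold E1
  refine continuous_of_dominated (bound := fun y => |w y| * C) ?_ ?_ ?_ ?_
  · intro p
    refine Continuous.aestronglyMeasurable ?_
    exact hw.mul (hg.1.comp (by fun_prop : Continuous fun y : ℝ => (p.1, x + p.2 * y)))
  · intro p
    refine Filter.Eventually.of_forall fun y => ?_
    rw [Real.norm_eq_abs, abs_mul]
    exact mul_le_mul_of_nonneg_left (hg.2 _ _) (abs_nonneg _)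
  · exact hwi.mul_const C
  · refine Filter.Eventually.of_forall fun y => ?_
    exact continuous_const.mul
      (hg.1.comp (by fun_prop : Continuous fun p : ℝ × ℝ => (p.1, x + p.2 * y)))

lemma bd_w (w : ℝ → ℝ) (hwi : Integrable (fun y => |w y|) (gaussianReal 0 1))
    {C : ℝ} {g : ℝ → ℝ → ℝ} (hg : BC C g) (x r θ : ℝ) :
    |E1 (fun y => w y * g r (x + θ * y))| ≤ ∫ y, |w y| * C ∂(gaussianReal 0 1) := by
  unfold E1
  refine norm_integral_le_of_norm_le (f := fun y => w y * g r (x + θ * y))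
    (hwi.mul_const C) ?_
  refine Filter.Eventually.of_forall fun y => ?_
  rw [Real.norm_eq_abs, abs_mul]
  exact mul_le_mul_of_nonneg_left (hg.2 _ _) (abs_nonneg _)

lemma E_hasDeriv {C : ℝ} {g G : ℝ → ℝ → ℝ} (hg : BC C g) (hG : BC C G)
    (hder : ∀ t x, HasDerivAt (G t) (g t x) x) (r x θ : ℝ) :
    HasDerivAt (fun θ => E1 (fun y => G r (x + θ * y))) (E1 (fun y => y * g r (x + θ * y))) θ := by
  unfold E1
  have hGc : Continuous (G r) := hG.1.comp (by fun_prop : Continuous fun y : ℝ => (r, y))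
  have hgc : Continuous (g r) := hg.1.comp (by fun_prop : Continuous fun y : ℝ => (r, y))
  refine (hasDerivAt_integral_of_dominated_loc_of_deriv_le (𝕜 := ℝ) (E := ℝ) (s := univ)
    (μ := gaussianReal 0 1) (x₀ := θ)
    (bound := fun y : ℝ => |y| * C) (F := fun θ y : ℝ => G r (x + θ * y))
    (F' := fun θ y : ℝ => y * g r (x + θ * y)) univ_mem ?_ ?_ ?_ ?_ ?_ ?_).2
  · refine Filter.Eventually.of_forall fun θ => ?_
    exact (hGc.comp (by fun_prop)).aestronglyMeasurable
  · refine Integrable.of_bound (C := C) (hGc.comp (by fun_prop)).aestronglyMeasurable ?_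
    exact Filter.Eventually.of_forall fun y => hG.2 _ _
  · exact (continuous_id.mul (hgc.comp (by fun_prop))).aestronglyMeasurable
  · refine Filter.Eventually.of_forall fun y θ _ => ?_
    rw [Real.norm_eq_abs, abs_mul]
    exact mul_le_mul_of_nonneg_left (hg.2 _ _) (abs_nonneg _)
  · exact abs_int.mul_const C
  · refine Filter.Eventually.of_forall fun y θ _ => ?_
    have h1 : HasDerivAt (fun θ : ℝ => x + θ * y) y θ := by
      simpa using ((hasDerivAt_id θ).mul_const y).const_add x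
    have h2 := (hder r (x + θ * y)).comp θ h1
    rw [mul_comm]
    exact h2

theorem t_TI : St_TI := by
  intro β C ζ g G hβ hζ hg hG hder t ht x
  have hC : 0 ≤ C := (abs_nonneg _).trans (hg.2 0 0)
  set s : ℝ := √(2 * β ^ 2) with hs
  have hs0 : 0 < s := Real.sqrt_pos.2 (by positivity)
  have hs2 : s ^ 2 = 2 * β ^ 2 := Real.sq_sqrt (by positivity)
  have hztm := zt_meas hζ
  have hztb := zt_bd hζ
  set A0 : ℝ → ℝ → ℝ := fun r θ => E1 (fun y => y * g r (x + θ * y)) with hA0
  have hA0c : Continuous (fun p : ℝ × ℝ => A0 p.1 p.2) :=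
    cont_w (fun y => y) continuous_id abs_int hg x
  obtain ⟨K, hK⟩ : ∃ K : ℝ, ∀ r θ, |A0 r θ| ≤ K :=
    ⟨_, fun r θ => bd_w (fun y => y) abs_int hg x r θ⟩
  have hK0 : 0 ≤ K := (abs_nonneg _).trans (hK 0 0)
  set E0 : ℝ → ℝ → ℝ := fun r θ => E1 (fun y => G r (x + θ * y)) with hE0
  have hE0c : Continuous (fun p : ℝ × ℝ => E0 p.1 p.2) := by
    have := cont_w (fun _ => 1) continuous_const (integrable_const _) hG x
    simpa using this
  have hE0b : ∀ r θ, |E0 r θ| ≤ C := by
    intro r θ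
    have := bd_w (fun _ => 1) (integrable_const _) hG x r θ
    simpa using this
  have hFTC : ∀ r θ, E0 r θ = G r x + ∫ θ' in (0:ℝ)..θ, A0 r θ' := by
    intro r θ
    have h1 : ∫ θ' in (0:ℝ)..θ, A0 r θ' = E0 r θ - E0 r 0 := by
      refine intervalIntegral.integral_eq_sub_of_hasDerivAt
        (fun θ' _ => E_hasDeriv hg hG hder r x θ') ?_
      exact (hA0c.comp (by fun_prop : Continuous fun y : ℝ => (r, y))).intervalIntegrable _ _
    have h2 : E0 r 0 = G r x := by simp [hE0, E1]
    rw [h1, h2]; ring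
  have hFTC' : ∀ r u, E0 r (s * u) = G r x + s * ∫ v in (0:ℝ)..u, A0 r (s * v) := by
    intro r u
    rw [hFTC, intervalIntegral.mul_integral_comp_mul_left, mul_zero]
  set B : ℝ → ℝ → ℝ := fun r v => zt ζ r * A0 r (s * v) with hBdef
  have hB : Measurable (Function.uncurry B) := by
    refine (hztm.comp measurable_fst).mul ?_
    exact (hA0c.comp (by fun_prop : Continuous fun p : ℝ × ℝ => (p.1, s * p.2))).measurable
  have hBK : ∀ r v, |B r v| ≤ K := by
    intro r v
    rw [hBdef]
    simp only [abs_mul]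
    calc |zt ζ r| * |A0 r (s * v)| ≤ 1 * K :=
          mul_le_mul (hztb r) (hK _ _) (abs_nonneg _) zero_le_one
      _ = K := one_mul K
  have hzt1 : ∀ r, 1 < r → zt ζ r = 0 := by
    intro r hr
    unfold zt
    rw [if_neg (not_le.2 hr)]
  have hB1 : ∀ r v, 1 < r → B r v = 0 := by
    intro r v hr
    rw [hBdef]
    simp only [hzt1 r hr, zero_mul]
  have hkey := key B hB K hBK hB1 ht
  have hGm : Continuous (fun r => G r x) := hG.1.comp (by fun_prop : Continuous fun r : ℝ => (r, x))
  -- the first part of `SP`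
  have hP1 : ∫ u in (0:ℝ)..1, 2 * u * (zt ζ (t + u ^ 2) * G (t + u ^ 2) x) =
      ∫ ρ in t..1, zt ζ ρ * G ρ x := by
    rw [subst_sq t (fun ρ => zt ζ ρ * G ρ x), cut_one ht]
    intro ρ hρ
    rw [hzt1 ρ hρ, zero_mul]
  have hi1 : IntervalIntegrable (fun u : ℝ => 2 * u * (zt ζ (t + u ^ 2) * G (t + u ^ 2) x))
      volume 0 1 := by
    rw [intervalIntegrable_iff_integrableOn_Ioc_of_le zero_le_one]
    refine Measure.integrableOn_of_bounded (M := 2 * C) (by simp) ?_ ?_
    · refine Measurable.aestronglyMeasurable ?_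
      exact (measurable_const.mul measurable_id).mul
        ((hztm.comp (by fun_prop)).mul (hGm.measurable.comp (by fun_prop)))
    · refine (ae_restrict_iff' measurableSet_Ioc).2 (Filter.Eventually.of_forall fun u hu => ?_)
      rw [Real.norm_eq_abs, abs_mul, abs_mul (zt _ _)]
      have h1 : |2 * u| ≤ 2 := by rw [abs_of_pos (by linarith [hu.1])]; linarith [hu.2]
      have h2 : |zt ζ (t + u ^ 2)| * |G (t + u ^ 2) x| ≤ 1 * C :=
        mul_le_mul (hztb _) (hG.2 _ _) (abs_nonneg _) zero_le_one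
      calc _ ≤ 2 * (1 * C) := mul_le_mul h1 h2 (by positivity) (by norm_num)
        _ = 2 * C := by ring
  have hi0 : IntervalIntegrable (fun u : ℝ => 2 * u * (zt ζ (t + u ^ 2) * E0 (t + u ^ 2) (s * u)))
      volume 0 1 := by
    rw [intervalIntegrable_iff_integrableOn_Ioc_of_le zero_le_one]
    refine Measure.integrableOn_of_bounded (M := 2 * C) (by simp) ?_ ?_
    · refine Measurable.aestronglyMeasurable ?_
      exact (measurable_const.mul measurable_id).mul
        ((hztm.comp (by fun_prop)).mul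
          (hE0c.comp (by fun_prop : Continuous fun u : ℝ => (t + u ^ 2, s * u))).measurable)
    · refine (ae_restrict_iff' measurableSet_Ioc).2 (Filter.Eventually.of_forall fun u hu => ?_)
      rw [Real.norm_eq_abs, abs_mul, abs_mul (zt _ _)]
      have h1 : |2 * u| ≤ 2 := by rw [abs_of_pos (by linarith [hu.1])]; linarith [hu.2]
      have h2 : |zt ζ (t + u ^ 2)| * |E0 (t + u ^ 2) (s * u)| ≤ 1 * C :=
        mul_le_mul (hztb _) (hE0b _ _) (abs_nonneg _) zero_le_one
      calc _ ≤ 2 * (1 * C) := mul_le_mul h1 h2 (by positivity) (by norm_num)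
        _ = 2 * C := by ring
  have hP2 : ∫ u in (0:ℝ)..1, 2 * u * (zt ζ (t + u ^ 2) * E0 (t + u ^ 2) (s * u)) =
      (∫ ρ in t..1, zt ζ ρ * G ρ x) + s * ∫ r in t..1, ∫ v in (0:ℝ)..1, B (r + v ^ 2) v := by
    rw [← hkey, ← hP1, ← intervalIntegral.integral_const_mul, ← sub_eq_iff_eq_add',
      ← intervalIntegral.integral_sub hi0 hi1]
    refine intervalIntegral.integral_congr fun u _ => ?_
    simp only [hFTC', hBdef, intervalIntegral.integral_const_mul]
    ring
  -- `SD`
  have hSD : ∀ r, SD β ζ g r x = s * ∫ v in (0:ℝ)..1, B (r + v ^ 2) v := by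
    intro r
    unfold SD
    rw [intervalIntegral.integral_const_mul, ← mul_assoc, ← hs]
    have h1 : β ^ 2 * (2 / s) = s := by
      field_simp
      linarith
    rw [h1]
  have hi3 : IntervalIntegrable (fun r => ∫ v in (0:ℝ)..1, B (r + v ^ 2) v) volume t 1 := by
    rw [intervalIntegrable_iff_integrableOn_Ioc_of_le ht.2]
    simp only [intervalIntegral.integral_of_le (zero_le_one' ℝ)]
    have h1 : Integrable (fun p : ℝ × ℝ => B (p.1 + p.2 ^ 2) p.2)
        ((volume.restrict (Ioc t 1)).prod (volume.restrict (Ioc (0:ℝ) 1))) := by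
      refine Integrable.of_bound (C := K) ?_ ?_
      · refine Measurable.aestronglyMeasurable ?_
        exact hB.comp ((measurable_fst.add (measurable_snd.pow_const 2)).prodMk measurable_snd)
      · exact Filter.Eventually.of_forall fun p => hBK (p.1 + p.2 ^ 2) p.2
    exact h1.integral_prod_left
  have hi4 : IntervalIntegrable (fun ρ => zt ζ ρ * G ρ x) volume t 1 := by
    rw [intervalIntegrable_iff_integrableOn_Ioc_of_le ht.2]
    refine Measure.integrableOn_of_bounded (M := C) (by simp) ?_ ?_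
    · exact (hztm.mul hGm.measurable).aestronglyMeasurable
    · refine Filter.Eventually.of_forall fun u => ?_
      rw [Real.norm_eq_abs, abs_mul]
      calc |zt ζ u| * |G u x| ≤ 1 * C :=
            mul_le_mul (hztb _) (hG.2 _ _) (abs_nonneg _) zero_le_one
        _ = C := one_mul C
  have hR : ∫ r in t..1, β ^ 2 * (SD β ζ g r x + ζ r * G r x) =
      β ^ 2 * ((s * ∫ r in t..1, ∫ v in (0:ℝ)..1, B (r + v ^ 2) v) +
        ∫ ρ in t..1, zt ζ ρ * G ρ x) := by
    rw [← intervalIntegral.integral_const_mul s, ← intervalIntegral.integral_add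
      (hi3.const_mul s) hi4, ← intervalIntegral.integral_const_mul]
    refine intervalIntegral.integral_congr fun r hr => ?_
    rw [uIcc_of_le ht.2] at hr
    simp only [hSD r, zt_eq (ζ := ζ) (⟨ht.1.trans hr.1, hr.2⟩ : r ∈ Icc (0:ℝ) 1)]
  rw [hR]
  unfold SP
  rw [← hs]
  change β ^ 2 * ∫ u in (0:ℝ)..1, 2 * u * (zt ζ (t + u ^ 2) * E0 (t + u ^ 2) (s * u)) = _
  rw [hP2, add_comm]

end Pool.TH148.AT.TI
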